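import Mathlib
import Pool.Agent.H81.Rhombic

set_option autoImplicit false

namespace Pool.Agent.Results.MP_de3f1f_gt.NotUnique

open Set MeasureTheory Pointwise Pool.Agent.H81.Rhombic

/-- A `d`-dimensional zonotope generated by `d + 1` segments. -/
def IsRD {d : ℕ} (Z : Set (EuclideanSpace ℝ (Fin d))) : Prop :=
  ∃ p : Fin (d + 1) → EuclideanSpace ℝ (Fin d),
    Submodule.span ℝ (range p) = ⊤ ∧ Z = ∑ i, segment ℝ 0 (p i)

/-- A translate of the zonotope generated by the vertices of a regular simplex centred at `o`. -/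
def IsReg {d : ℕ} (Z : Set (EuclideanSpace ℝ (Fin d))) : Prop :=
  ∃ (p : Fin (d + 1) → EuclideanSpace ℝ (Fin d)) (v : EuclideanSpace ℝ (Fin d)) (s : ℝ),
    0 < s ∧ ∑ i, p i = 0 ∧ (∀ i j, i ≠ j → dist (p i) (p j) = s) ∧
      Z = v +ᵥ ∑ i, segment ℝ 0 (p i)

/-- Circumradius. -/
noncomputable def cr {d : ℕ} (Z : Set (EuclideanSpace ℝ (Fin d))) : ℝ :=
  sInf {r | ∃ c, Z ⊆ Metric.closedBall c r}

noncomputable def q (s : ℝ) : Fin 4 → E :=
  ![!₂[5 / 4 * s, s, s], !₂[5 / 4 * s, -s, -s], !₂[-3 / 4 * s, s, -s], !₂[-3 / 4 * s, -s, s]]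

lemma width {p q : Fin 4 → E} {v : E} (h : parallelepiped q ⊆ v +ᵥ parallelepiped p) (u : E) :
    ∑ i, |inner ℝ u (q i)| ≤ ∑ i, |inner ℝ u (p i)| := by
  let ε : Fin 4 → ℝ := fun i => if 0 ≤ inner ℝ u (q i) then 1 else 0
  have m1 : ∑ i, ε i • q i ∈ parallelepiped q := (mem_parallelepiped_iff _ _).2 ⟨ε,
    ⟨fun i => by simp only [ε]; split_ifs <;> simp, fun i => by
      simp only [ε]; split_ifs <;> simp⟩, rfl⟩
  have m2 : ∑ i, (1 - ε i) • q i ∈ parallelepiped q := (mem_parallelepiped_iff _ _).2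
    ⟨fun i => 1 - ε i, ⟨fun i => by simp only [ε]; split_ifs <;> simp, fun i => by
      simp only [ε]; split_ifs <;> simp⟩, rfl⟩
  obtain ⟨x, hx, ex⟩ := h m1
  obtain ⟨y, hy, ey⟩ := h m2
  obtain ⟨s, hs, rfl⟩ := (mem_parallelepiped_iff _ _).1 hx
  obtain ⟨t, ht, rfl⟩ := (mem_parallelepiped_iff _ _).1 hy
  have e1 := congrArg (inner ℝ u) ex
  have e2 := congrArg (inner ℝ u) ey
  simp only [vadd_eq_add, inner_add_right, inner_sum, inner_smul_right] at e1 e2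
  have e3 : ∑ i, |inner ℝ u (q i)| =
      ∑ i, ε i * inner ℝ u (q i) - ∑ i, (1 - ε i) * inner ℝ u (q i) := by
    rw [← Finset.sum_sub_distrib]
    refine Finset.sum_congr rfl fun i _ => ?_
    simp only [ε]
    split_ifs with h
    · rw [abs_of_nonneg h]; ring
    · rw [abs_of_neg (not_le.1 h)]; ring
  rw [e3, ← e1, ← e2, add_sub_add_left_eq_sub, ← Finset.sum_sub_distrib]
  refine Finset.sum_le_sum fun i _ => ?_
  have h1 : 0 ≤ s i := hs.1 i
  have h2 : s i ≤ 1 := hs.2 i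
  have h3 : 0 ≤ t i := ht.1 i
  have h4 : t i ≤ 1 := ht.2 i
  rcases le_total 0 (inner ℝ u (p i)) with h | h
  · rw [abs_of_nonneg h]; nlinarith
  · rw [abs_of_nonpos h]; nlinarith

lemma inner3 (u v : E) : inner ℝ u v = u 0 * v 0 + u 1 * v 1 + u 2 * v 2 := by
  simp [PiLp.inner_apply, Fin.sum_univ_three]; ring

lemma frame {p : Fin 4 → E} {s : ℝ} (hs : 0 < s) (h0 : ∑ i, p i = 0)
    (hd : ∀ i j, i ≠ j → dist (p i) (p j) = s) (u : E) :
    ∑ i, inner ℝ u (p i) ^ 2 = s ^ 2 / 2 * (u 0 ^ 2 + u 1 ^ 2 + u 2 ^ 2) := by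
  have d : ∀ i j, i ≠ j → (p i 0 - p j 0) ^ 2 + (p i 1 - p j 1) ^ 2 + (p i 2 - p j 2) ^ 2 = s ^ 2 :=
    fun i j h => by
      rw [← hd i j h, dist_eq_norm, norm_sq3]; simp
  have d01 := d 0 1 (by decide)
  have d02 := d 0 2 (by decide)
  have d03 := d 0 3 (by decide)
  have d12 := d 1 2 (by decide)
  have d13 := d 1 3 (by decide)
  have d23 := d 2 3 (by decide)
  have z : ∀ k, p 3 k = -p 0 k - p 1 k - p 2 k := fun k => by
    have := congrArg (fun x : E => x k) h0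
    simp [Fin.sum_univ_four] at this
    linarith
  rw [z 0, z 1, z 2] at d03 d13 d23
  let A : Matrix (Fin 3) (Fin 3) ℝ := Matrix.of fun i k =>
    ![p 0 k + p 1 k, p 0 k + p 2 k, -p 1 k - p 2 k] i
  have hA : A * ((2 / s ^ 2) • A.transpose) = 1 := by
    ext i j
    fin_cases i <;> fin_cases j <;> simp [A, Matrix.mul_apply, Fin.sum_univ_three] <;>
      field_simp <;> linarith
  have hB := mul_eq_one_comm.1 hA
  have e : ∀ i j, A 0 i * A 0 j + A 1 i * A 1 j + A 2 i * A 2 j =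
      s ^ 2 / 2 * (1 : Matrix (Fin 3) (Fin 3) ℝ) i j := fun i j => by
    rw [← hB]
    simp only [Matrix.mul_apply, Fin.sum_univ_three, Matrix.smul_apply, Matrix.transpose_apply,
      smul_eq_mul]
    field_simp
  have e00 := e 0 0
  have e01 := e 0 1
  have e02 := e 0 2
  have e11 := e 1 1
  have e12 := e 1 2
  have e22 := e 2 2
  simp [A] at e00 e01 e02 e11 e12 e22
  simp only [Fin.sum_univ_four, inner3, z]
  linear_combination u 0 ^ 2 * e00 + 2 * u 0 * u 1 * e01 + 2 * u 0 * u 2 * e02 + u 1 ^ 2 * e11 +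
    2 * u 1 * u 2 * e12 + u 2 ^ 2 * e22

lemma not_reg {s : ℝ} (hs : 0 < s) : ¬ IsReg (parallelepiped (q s)) := by
  intro hreg
  obtain ⟨p, v, r, hr, h0, hd, h⟩ : ∃ (p : Fin 4 → E) (v : E) (r : ℝ), 0 < r ∧ ∑ i, p i = 0 ∧
    (∀ i j, i ≠ j → dist (p i) (p j) = r) ∧
      parallelepiped (q s) = v +ᵥ ∑ i, segment ℝ 0 (p i) := hreg
  rw [← parallelepiped_eq_sum_segment] at h
  have w1 := width h.subset !₂[1, 0, 0]
  have h' : parallelepiped p ⊆ (-v) +ᵥ parallelepiped (q s) := by rw [h, neg_vadd_vadd]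
  have w2 := width h' !₂[-1, 1 / 4, 1]
  have f1 := frame hr h0 hd !₂[1, 0, 0]
  have f2 := frame hr h0 hd !₂[-1, 1 / 4, 1]
  have z2 : ∑ i, inner ℝ (!₂[-1, 1 / 4, 1] : E) (p i) = 0 := by
    rw [← inner_sum, h0, inner_zero_right]
  have a1 : ∑ i, |inner ℝ (!₂[1, 0, 0] : E) (q s i)| = 4 * s := by
    simp [Fin.sum_univ_four, inner3, q, abs_mul, abs_of_pos hs, abs_div]; ring
  have a2 : ∑ i, |inner ℝ (!₂[-1, 1 / 4, 1] : E) (q s i)| = 4 * s := by
    simp only [Fin.sum_univ_four, inner3, q]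
    simp
    rw [abs_of_nonneg (by linarith), abs_of_nonpos (by linarith), abs_of_nonneg (by linarith),
      abs_of_nonneg (by linarith)]
    ring
  rw [a1] at w1
  rw [a2] at w2
  simp only [Fin.sum_univ_four] at w1 w2 f1 f2 z2
  generalize inner ℝ (!₂[1, 0, 0] : E) (p 0) = x0 at *
  generalize inner ℝ (!₂[1, 0, 0] : E) (p 1) = x1 at *
  generalize inner ℝ (!₂[1, 0, 0] : E) (p 2) = x2 at *
  generalize inner ℝ (!₂[1, 0, 0] : E) (p 3) = x3 at *
  generalize inner ℝ (!₂[-1, 1 / 4, 1] : E) (p 0) = y0 at *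
  generalize inner ℝ (!₂[-1, 1 / 4, 1] : E) (p 1) = y1 at *
  generalize inner ℝ (!₂[-1, 1 / 4, 1] : E) (p 2) = y2 at *
  generalize inner ℝ (!₂[-1, 1 / 4, 1] : E) (p 3) = y3 at *
  simp at f1 f2
  rw [← sq_abs x0, ← sq_abs x1, ← sq_abs x2, ← sq_abs x3] at f1
  have b1 : 16 * s ^ 2 ≤ 2 * r ^ 2 := by
    have := pow_le_pow_left₀ (by positivity) w1 2
    nlinarith [sq_nonneg (|x0| - |x1|), sq_nonneg (|x0| - |x2|), sq_nonneg (|x0| - |x3|),
      sq_nonneg (|x1| - |x2|), sq_nonneg (|x1| - |x3|), sq_nonneg (|x2| - |x3|)]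
  have c : ∀ a b c d : ℝ, a + b + c + d = 0 → |a| + |b| + |c| + |d| ≤ 4 * s → |a| ≤ 2 * s := by
    intro a b c d h1 h2
    have : a = -(b + c + d) := by linarith
    have h3 : |a| ≤ |b| + |c| + |d| := by
      rw [this, abs_neg]
      exact (abs_add_le _ _).trans (by linarith [abs_add_le b c])
    linarith
  have c0 := c y0 y1 y2 y3 z2 w2
  have c1 := c y1 y0 y2 y3 (by linarith) (by linarith)
  have c2 := c y2 y1 y0 y3 (by linarith) (by linarith)
  have c3 := c y3 y1 y2 y0 (by linarith) (by linarith)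
  rw [← sq_abs y0, ← sq_abs y1, ← sq_abs y2, ← sq_abs y3] at f2
  have : |y0| ^ 2 + |y1| ^ 2 + |y2| ^ 2 + |y3| ^ 2 ≤ 8 * s ^ 2 := by
    nlinarith [abs_nonneg y0, abs_nonneg y1, abs_nonneg y2, abs_nonneg y3]
  nlinarith

lemma vol_q {s : ℝ} (hs : 0 < s) : volume (parallelepiped (q s)) = ENNReal.ofReal (16 * s ^ 3) := by
  rw [vol_eq (q s) ![3, 3, 5, 5] (fun i => by fin_cases i <;> simp)]
  · congr 1
    have h3 : 0 < s ^ 3 := by positivity
    have e0 : dt (q s) 0 = -(3 * s ^ 3) := by simp [dt, det3, q, Fin.succAbove]; ring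
    have e1 : dt (q s) 1 = 3 * s ^ 3 := by simp [dt, det3, q, Fin.succAbove]; ring
    have e2 : dt (q s) 2 = -(5 * s ^ 3) := by simp [dt, det3, q, Fin.succAbove]; ring
    have e3 : dt (q s) 3 = 5 * s ^ 3 := by simp [dt, det3, q, Fin.succAbove]; ring
    rw [Fin.sum_univ_four, e0, e1, e2, e3, abs_neg, abs_neg, abs_of_pos (by positivity),
      abs_of_pos (by positivity)]
    ring
  · intro t ht
    have h0 := congrArg (fun x : E => x 0) ht
    have h1 := congrArg (fun x : E => x 1) ht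
    have h2 := congrArg (fun x : E => x 2) ht
    simp [Fin.sum_univ_four, q] at h0 h1 h2
    have k0 : 5 * (t 0 + t 1) - 3 * (t 2 + t 3) = 0 := by
      have : s * (5 * (t 0 + t 1) - 3 * (t 2 + t 3)) = 0 := by linarith
      simpa [hs.ne'] using this
    have k1 : t 0 - t 1 + t 2 - t 3 = 0 := by
      have : s * (t 0 - t 1 + t 2 - t 3) = 0 := by linarith
      simpa [hs.ne'] using this
    have k2 : t 0 - t 1 - t 2 + t 3 = 0 := by
      have : s * (t 0 - t 1 - t 2 + t 3) = 0 := by linarith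
      simpa [hs.ne'] using this
    refine ⟨t 0 / 3, fun j => ?_⟩
    fin_cases j <;> simp <;> linarith

lemma ball_q {s : ℝ} (hs : 0 < s) :
    parallelepiped (q s) ⊆ Metric.closedBall (!₂[s / 2, 0, 0] : E) (2 * s) := by
  rw [parallelepiped_eq_convexHull]
  refine convexHull_min ?_ (convex_closedBall _ _)
  intro x hx
  obtain ⟨g, hg, rfl⟩ := (Set.mem_fintype_sum _ _).1 hx
  rw [Metric.mem_closedBall, dist_eq_norm]
  refine le_of_pow_le_pow_left₀ (n := 2) (by norm_num) (by positivity) ?_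
  rw [norm_sq3, Fin.sum_univ_four]
  have := sq_nonneg s
  rcases hg 0 with h0 | h0 <;> rcases hg 1 with h1 | h1 <;> rcases hg 2 with h2 | h2 <;>
    rcases hg 3 with h3 | h3 <;> rw [h0, h1, h2, h3] <;> simp [q] <;> nlinarith

lemma span_q {s : ℝ} (hs : 0 < s) : Submodule.span ℝ (range (q s)) = ⊤ := by
  refine eq_top_iff.2 fun x _ => ?_
  have : x = (2 * x 0 / (5 * s) + x 1 / (4 * s) + x 2 / (4 * s)) • q s 0 +
      (2 * x 0 / (5 * s) - x 1 / (4 * s) - x 2 / (4 * s)) • q s 1 +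
      (x 1 / (4 * s) - x 2 / (4 * s)) • q s 2 + (x 2 / (4 * s) - x 1 / (4 * s)) • q s 3 := by
    ext k
    fin_cases k <;> simp [q] <;> field_simp <;> ring
  rw [this]
  have m : ∀ i, q s i ∈ Submodule.span ℝ (range (q s)) := fun i => Submodule.subset_span ⟨i, rfl⟩
  exact add_mem (add_mem (add_mem (Submodule.smul_mem _ _ (m 0)) (Submodule.smul_mem _ _ (m 1)))
    (Submodule.smul_mem _ _ (m 2))) (Submodule.smul_mem _ _ (m 3))

theorem result : ∃ d : ℕ, 2 ≤ d ∧ ∃ Z : Set (EuclideanSpace ℝ (Fin d)),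
    IsRD Z ∧ volume Z = 1 ∧ (∀ W : Set (EuclideanSpace ℝ (Fin d)), IsRD W → volume W = 1 →
      cr Z ≤ cr W) ∧ ¬ IsReg Z := by
  obtain ⟨s, hs, h3⟩ : ∃ s : ℝ, 0 < s ∧ s ^ 3 = 1 / 16 :=
    ⟨(1 / 16) ^ ((3 : ℕ) : ℝ)⁻¹, by positivity,
      Real.rpow_inv_natCast_pow (by norm_num) (by norm_num)⟩
  refine ⟨3, by norm_num, parallelepiped (q s),
    ⟨q s, span_q hs, parallelepiped_eq_sum_segment _⟩, ?_, ?_, not_reg hs⟩
  · rw [vol_q hs, h3]; norm_num
  · rintro W ⟨p, -, rfl⟩ hv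
    rw [← parallelepiped_eq_sum_segment] at hv ⊢
    have z : ∀ p : Fin 4 → E, (0 : E) ∈ parallelepiped p := fun p =>
      (mem_parallelepiped_iff _ _).2 ⟨0, ⟨le_rfl, fun i => by simp⟩, by simp⟩
    have h1 : cr (parallelepiped (q s)) ≤ 2 * s :=
      csInf_le ⟨0, fun r ⟨c, hc⟩ => dist_nonneg.trans (hc (z _))⟩ ⟨_, ball_q hs⟩
    refine h1.trans (le_csInf ?_ ?_)
    · have : IsCompact (parallelepiped p) := isCompact_Icc.image (by fun_prop)
      obtain ⟨r, hr⟩ := this.isBounded.subset_closedBall 0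
      exact ⟨r, 0, hr⟩
    · rintro r ⟨c, hc⟩
      have h2 := vol_le p
      rw [hv, ENNReal.one_le_ofReal] at h2
      have h4 := vol_le_cr hc
      refine le_of_pow_le_pow_left₀ (n := 3) (by norm_num) (dist_nonneg.trans (hc (z _))) ?_
      rw [mul_pow, h3]
      linarith

end Pool.Agent.Results.MP_de3f1f_gt.NotUnique
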